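import Pool.Agent.P.MP_33ab4b_ag.T.All
import Pool.Agent.P.MP_33ab4b_ag.T.Lift

/-!
Finiteness of the Chern number `c1 ^ 3` over the smooth projective toric threefolds whose
cohomology ring, second cohomology group and first Pontryagin class are prescribed.
-/

set_option autoImplicit false

namespace Pool.Agent.Results.MP_33ab4b_ag.Toric

open Pool.Agent.P.MP_33ab4b_ag

universe u

theorem result (R : Type u) [CommRing R] (L : AddSubgroup R) (p : R) :
    {n : ℤ | ∃ (m : ℕ) (S : SPFan m) (φ : S.Coh ≃+* R),
      S.H2.map φ.toAddMonoidHom = L ∧ φ S.p1 = p ∧ S.IsC1Cube n}.Finite :=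
  T.main_lift T.all_Main R L p

end Pool.Agent.Results.MP_33ab4b_ag.Toric
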