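import Pool.Agent.P.MP_33ab4b_ag.B.All

/-!
Finiteness of the Chern number `c1 ^ 3` for a prescribed cubic form and first Pontryagin class
passes from a class of bases to all towers of divisorial contractions to points and blow-downs to
smooth curves over it. No condition on the discriminant of the cubic form is needed.
-/

set_option autoImplicit false

namespace Pool.Agent.Results.MP_33ab4b_ag.Towers

open Pool.Agent.P.MP_33ab4b_ag.B

theorem result (G : ℕ) (B : ∀ n, Datum n → Prop) (hB : Kfin B)
    (hA : ∀ (n : ℕ) (D : Datum n), B n D → D.Adm G) : Kfin (Tower G B) :=
  all_MAIN G B hB hA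

end Pool.Agent.Results.MP_33ab4b_ag.Towers
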