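import Pool.Agent.P.MP_33ab4b_ag.B.All

/-!
Finiteness of the Chern number `c1 ^ 3` for a prescribed cubic form and first Pontryagin class over
all towers of divisorial contractions to points and blow-downs to smooth curves whose base is a
conic bundle over a smooth surface.
-/

set_option autoImplicit false

namespace Pool.Agent.Results.MP_33ab4b_ag.TowersConic

open Pool.Agent.P.MP_33ab4b_ag.B

theorem result (G : ℕ) :
    Kfin (Tower G fun (n : ℕ) (D : Datum n) =>
      ∃ phi kap Del : Fin n → ℚ, Conic G D phi kap Del) :=
  all_CMAIN G

end Pool.Agent.Results.MP_33ab4b_ag.TowersConic
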